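import Pool.Agent.R203.IF.Stm
import Pool.Agent.Y50.GE.Om

/-! # IF-OMF: from symmetric polygons to paths from `Fix σ` to `p` (project IF) -/

set_option autoImplicit false

open Set Topology

noncomputable section

namespace Pool.Agent.R441.IF

open Pool.Agent.Y489.GE Pool.Agent.Y50.GE Pool.Agent.R203.IF

variable {X : Type} [MetricSpace X]

theorem OF.mono {F : Set X} {p : X} {a a' : ℝ} (h : a ≤ a') : OF F p a ⊆ OF F p a' :=
  fun _ hd => ⟨hd.1, hd.2.1, hd.2.2.1, fun t ht => hd.2.2.2 t (h.trans ht)⟩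

/-- the second half of a loop -/
def rp (b : ℝ) (g : ℝ → X) : ℝ → X := fun t => g (max t 0 + b)

theorem rp_mem {σ : X → X} {p : X} {b : ℝ} (hb : 0 ≤ b) {g : ℝ → X} (hg : g ∈ Om p (2 * b))
    (hf : σ (g b) = g b) : rp b g ∈ OF (Fx σ) p b := by
  refine ⟨fun s t => ?_, ?_, fun t ht => ?_, fun t ht => ?_⟩
  · unfold rp
    refine (hg.1 _ _).trans ?_
    rw [add_sub_add_right_eq_sub]
    refine (abs_max_sub_max_le_abs _ _ _)
  · change σ (rp b g 0) = rp b g 0
    unfold rp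
    rw [max_self, zero_add]
    exact hf
  · unfold rp
    rw [max_eq_right ht, max_self]
  · unfold rp
    refine hg.2.2 _ ?_
    have := le_max_left t 0
    linarith

theorem rp_const (b : ℝ) (p : X) : rp b (fun _ => p) = fun _ => p := rfl

theorem rp_cont {Z : Type} [TopologicalSpace Z] {F : Z → ℝ → X} (hF : Continuous F) (b : ℝ) :
    Continuous fun z => rp b (F z) := by
  rw [continuous_pi_iff]
  intro t
  exact (continuous_apply _).comp hF

/-- the loop of a path -/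
def ed (σ : X → X) (a : ℝ) (d : ℝ → X) : ℝ → X :=
  fun t => if t ≤ a then σ (d (a - t)) else d (t - a)

theorem ed_const {σ : X → X} {p : X} (hp : σ p = p) (a : ℝ) :
    ed σ a (fun _ => p) = fun _ => p := by
  funext t
  unfold ed
  split_ifs
  · exact hp
  · rfl

theorem ed_cont {Z : Type} [TopologicalSpace Z] {F : Z → ℝ → X} (hF : Continuous F) {σ : X → X}
    (hσ : Continuous σ) (a : ℝ) : Continuous fun z => ed σ a (F z) := by
  rw [continuous_pi_iff]
  intro t
  unfold ed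
  split_ifs
  · exact hσ.comp ((continuous_apply _).comp hF)
  · exact (continuous_apply _).comp hF

section

variable {σ : X → X} (hσ : Isometry σ) (hσ2 : ∀ x, σ (σ x) = x) {p : X} (hp : σ p = p) {a : ℝ}
  (ha : 0 < a) {d : ℝ → X} (hd : d ∈ OF (Fx σ) p a)

include hσ hd in
theorem ed_lip (s t : ℝ) : dist (ed σ a d s) (ed σ a d t) ≤ |s - t| := by
  have h0 : σ (d 0) = d 0 := hd.2.1
  have key : ∀ s t, s ≤ a → a < t → dist (ed σ a d s) (ed σ a d t) ≤ |s - t| := by
    intro s t hs ht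
    unfold ed
    rw [if_pos hs, if_neg (not_le.2 ht)]
    have h1 : dist (σ (d (a - s))) (d 0) ≤ a - s := by
      conv_lhs => rw [← h0]
      rw [hσ.dist_eq]
      refine (hd.1 _ _).trans (le_of_eq ?_)
      rw [sub_zero, abs_of_nonneg (by linarith)]
    have h2 : dist (d 0) (d (t - a)) ≤ t - a := by
      refine (hd.1 _ _).trans (le_of_eq ?_)
      rw [zero_sub, abs_neg, abs_of_nonneg (by linarith)]
    have h3 : |s - t| = t - s := by rw [abs_sub_comm, abs_of_nonneg (by linarith)]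
    rw [h3]
    linarith [dist_triangle (σ (d (a - s))) (d 0) (d (t - a))]
  rcases le_or_gt s a with hs | hs <;> rcases le_or_gt t a with ht | ht
  · unfold ed
    rw [if_pos hs, if_pos ht, hσ.dist_eq]
    refine (hd.1 _ _).trans (le_of_eq ?_)
    rw [show a - s - (a - t) = -(s - t) by ring, abs_neg]
  · exact key s t hs ht
  · rw [dist_comm, abs_sub_comm]
    exact key t s ht hs
  · unfold ed
    rw [if_neg (not_le.2 hs), if_neg (not_le.2 ht)]
    refine (hd.1 _ _).trans (le_of_eq ?_)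
    rw [sub_sub_sub_cancel_right]

include hσ hp ha hd in
theorem ed_mem : ed σ a d ∈ Om p (2 * a) := by
  refine ⟨ed_lip hσ hd, fun t ht => ?_, fun t ht => ?_⟩
  · unfold ed
    rw [if_pos (by linarith), hd.2.2.2 _ (by linarith), hp]
  · unfold ed
    rw [if_neg (by linarith), hd.2.2.2 _ (by linarith)]

include hd in
theorem rp_ed : rp a (ed σ a d) = d := by
  have h0 : σ (d 0) = d 0 := hd.2.1
  funext t
  unfold rp ed
  rcases le_or_gt t 0 with ht | ht
  · rw [max_eq_right ht, zero_add, if_pos le_rfl, sub_self, h0, hd.2.2.1 t ht]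
  · rw [max_eq_left ht.le, if_neg (by linarith), add_sub_cancel_right]

include hd in
theorem ed_mid : σ (ed σ a d a) = ed σ a d a := by
  have h0 : σ (d 0) = d 0 := hd.2.1
  unfold ed
  rw [if_pos le_rfl, sub_self, h0, h0]

include hσ2 hd in
theorem ed_symm (t : ℝ) : ed σ a d (2 * a - t) = σ (ed σ a d t) := by
  have h0 : σ (d 0) = d 0 := hd.2.1
  rcases lt_trichotomy t a with h | h | h
  · unfold ed
    rw [if_neg (by linarith), if_pos h.le, hσ2]
    congr 1
    ring
  · rw [h, ed_mid hd]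
    congr 1
    ring
  · unfold ed
    rw [if_pos (by linarith), if_neg (by linarith)]
    congr 2
    ring

include hσ hσ2 hp ha hd in
theorem samp_symp {N : ℕ} [NeZero N] [NeZero (2 * N)] {δ : ℝ} (hδ : 0 ≤ δ) (hNδ : N * δ = a) :
    samp (2 * N) δ (ed σ a d) ∈ Symp X σ N δ p := by
  have hN2 : ((2 * N : ℕ) : ℝ) * δ = 2 * a := by push_cast; rw [← hNδ]; ring
  have hem := ed_mem hσ hp ha hd
  have h1 := samp_mem (p := p) hδ hN2 hem
  refine ⟨⟨h1.1, fun i => ?_⟩, h1.2⟩
  have hv := ZMod.val_lt i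
  have e1 : i = (((i.val : ℤ)) : ZMod (2 * N)) := by
    rw [Int.cast_natCast, ZMod.natCast_zmod_val]
  have e2 : -i = (((2 * N : ℕ) : ℤ) - (i.val : ℤ) : ℤ) := by
    push_cast
    rw [ZMod.natCast_zmod_val]
    have : ((2 * N : ℕ) : ZMod (2 * N)) = 0 := ZMod.natCast_self _
    push_cast at this
    rw [this, zero_sub]
  have k1 := samp_int (p := p) hN2 hem (n := (i.val : ℤ)) (by omega) (by omega)
  have k2 := samp_int (p := p) hN2 hem (n := ((2 * N : ℕ) : ℤ) - (i.val : ℤ)) (by omega) (by omega)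
  rw [← e1] at k1
  rw [← e2] at k2
  rw [k1, k2, ← ed_symm hσ2 hd]
  congr 1
  push_cast
  rw [← hNδ]
  ring

end

/-- the value at the middle of a symmetric polygon -/
theorem pol_mid {r : ℝ} {m : X → X → ℝ → X} (hm : GMap X r m) {σ : X → X} {N : ℕ}
    {e : ℝ} (he : e ≤ r) {p : X} {x : ZMod (2 * N) → X} (hx : x ∈ Symp X σ N e p) {κ : ℝ}
    (hκ : 0 < κ) : σ (pol m (2 * N) κ x (N * κ)) = pol m (2 * N) κ x (N * κ) := by
  have h1 : pol m (2 * N) κ x (N * κ) = x (((N : ℤ)) : ZMod (2 * N)) := by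
    unfold pol
    rw [mul_div_cancel_right₀ _ hκ.ne', cl_of_mem (Nat.cast_nonneg N) (by
      push_cast
      have : (0 : ℝ) ≤ N := Nat.cast_nonneg N
      linarith)]
    have := bar_int hm he hx.1.1 (N : ℤ)
    rw [Int.cast_natCast] at this
    exact this
  rw [h1, ← hx.1.2]
  congr 1
  have h2 : ((2 * N : ℕ) : ZMod (2 * N)) = 0 := ZMod.natCast_self _
  push_cast at h2 ⊢
  have h3 : (N : ZMod (2 * N)) + (N : ZMod (2 * N)) = 0 := by
    rw [← h2]; ring
  exact neg_eq_of_add_eq_zero_left h3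

theorem t_OMF : S_OMF := by
  intro X _ r m hm σ hσ hσ2 p hp lam a N _ _ hlam ha hr hH
  have hN : (0 : ℝ) < N := by
    have : 0 < N := Nat.pos_of_ne_zero (NeZero.ne N)
    exact_mod_cast this
  obtain ⟨δ, hδdef⟩ : ∃ δ, δ = a / N := ⟨_, rfl⟩
  rw [← hδdef] at hr hH
  have hδ : 0 < δ := by rw [hδdef]; positivity
  have hNδ : N * δ = a := by rw [hδdef]; field_simp
  have hδδ' : δ ≤ lam * δ := by nlinarith
  have hδ' : 0 < lam * δ := by linarith
  have hδr : δ ≤ r := hδδ'.trans hr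
  have hNδ' : N * (lam * δ) = lam * a := by rw [← hNδ]; ring
  have haa : a ≤ lam * a := by nlinarith
  have hN2 : ((2 * N : ℕ) : ℝ) * δ = 2 * a := by push_cast; rw [← hNδ]; ring
  have hsub : OF (Fx σ) p a ⊆ OF (Fx σ) p (lam * a) := OF.mono haa
  -- constant polygons
  have hpc : ∀ κ : ℝ, pol m (2 * N) κ (fun _ => p) = fun _ => p := by
    intro κ
    funext τ
    unfold pol bar
    exact hm.self (hδ.le.trans hδr) p ⟨Int.fract_nonneg _, (Int.fract_lt_one _).le⟩
  have hsc : samp (2 * N) δ (fun _ => p) = fun _ => p := rfl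
  have hval : Continuous fun d : ↥(OF (Fx σ) p a) => d.1 := continuous_subtype_val
  have hem : ∀ d : ↥(OF (Fx σ) p a), ed σ a d.1 ∈ Om p (2 * a) := fun d => ed_mem hσ hp ha d.2
  have hsm : ∀ d : ↥(OF (Fx σ) p a), samp (2 * N) δ (ed σ a d.1) ∈ Symp X σ N δ p :=
    fun d => samp_symp hσ hσ2 hp ha d.2 hδ.le hNδ
  have hedc : Continuous fun d : ↥(OF (Fx σ) p a) => ed σ a d.1 := ed_cont hval hσ.continuous a
  -- membership of the curves of polygons
  have hpm : ∀ (e κ : ℝ) (x : ZMod (2 * N) → X), e ≤ r → x ∈ Symp X σ N e p → e ≤ κ → 0 < κ →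
      κ ≤ lam * δ → rp (N * κ) (pol m (2 * N) κ x) ∈ OF (Fx σ) p (lam * a) := by
    intro e κ x he hx hκ hκ0 hκ1
    have h1 : rp (N * κ) (pol m (2 * N) κ x) ∈ OF (Fx σ) p (N * κ) := by
      refine rp_mem (by positivity) ?_ (pol_mid hm he hx hκ0)
      refine pol_mem hm he ⟨hx.1.1, hx.2⟩ hκ hκ0 (le_of_eq ?_)
      push_cast
      ring
    refine OF.mono ?_ h1
    rw [← hNδ']
    exact mul_le_mul_of_nonneg_left hκ1 hN.le
  -- the first homotopy
  have H1 : Htp (Y := ↥(OF (Fx σ) p a)) (W := ℝ → X) (OF (Fx σ) p (lam * a))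
      {d | d.1 = fun _ => p} (fun d => d.1)
      (fun d => rp (N * δ) (pol m (2 * N) δ (samp (2 * N) δ (ed σ a d.1)))) := by
    refine Htp.mono (T := OF (Fx σ) p a) ?_ hsub
    refine Htp.of_clamp (fun d u => rp a (k1 m δ (ed σ a d.1) u)) ?_ ?_ ?_ ?_ ?_
    · rw [continuousOn_iff_continuous_domRestrict]
      refine rp_cont (F := fun z : ↥{z : ↥(OF (Fx σ) p a) × ℝ | z.2 ∈ Icc (0 : ℝ) 1} =>
        k1 m δ (ed σ a z.1.1.1) z.1.2) ?_ a
      exact k1_cont hm hδ hδr
        (F := fun z : ↥{z : ↥(OF (Fx σ) p a) × ℝ | z.2 ∈ Icc (0 : ℝ) 1} => ed σ a z.1.1.1)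
        (u := fun z => z.1.2) (hedc.comp (continuous_fst.comp continuous_subtype_val))
        (fun z => (hem z.1.1).1) (by fun_prop) (fun z => z.2)
    · intro d u hu
      refine rp_mem ha.le (k1_om hm hδ hδr hN2 (hem d) hu) ?_
      have h1 : k1 m δ (ed σ a d.1) u a = ed σ a d.1 a := by
        have hτ : a ∈ Icc (((N : ℤ) : ℝ) * δ) ((((N : ℤ) : ℝ) + 1) * δ) := by
          rw [Int.cast_natCast, hNδ]
          exact ⟨le_rfl, by nlinarith⟩
        rw [k1_eq hm hδ hδr (hem d).1 hu (N : ℤ) hτ]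
        obtain ⟨w1, w2, w3, w4⟩ := w_mem hδ hδr (hem d).1 hu hτ
        have e0 : a - ((N : ℤ) : ℝ) * δ = 0 := by rw [Int.cast_natCast, hNδ, sub_self]
        rw [e0, zero_div, hm.zero _ _ w4, Int.cast_natCast, hNδ]
      rw [h1]
      exact ed_mid d.2
    · intro d
      have h1 : k1 m δ (ed σ a d.1) 0 = ed σ a d.1 := by
        funext τ
        exact k1_zero hm hδ hδr (hem d).1 ⟨le_rfl, zero_le_one⟩ τ
      change rp a (k1 m δ (ed σ a d.1) 0) = d.1
      rw [h1]
      exact rp_ed d.2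
    · intro d
      change rp a (k1 m δ (ed σ a d.1) 1) = _
      rw [k1_one hm hδ hδr hN2 (hem d), hNδ]
    · intro d hd u hu
      have hd' : d.1 = fun _ => p := hd
      change rp a (k1 m δ (ed σ a d.1) u) = d.1
      rw [hd', ed_const hp]
      have h3 : k1 m δ (fun _ => p) u = fun _ => p := by
        funext τ
        unfold k1
        refine hm.self (hδ.le.trans hδr) p ?_
        have h1 : τ ≤ max ((⌊τ / δ⌋ + u) * δ) τ := le_max_right _ _
        have h2 : (⌊τ / δ⌋ : ℝ) * δ ≤ τ := by rw [← le_div_iff₀ hδ]; exact Int.floor_le _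
        exact ⟨div_nonneg (by linarith) (by linarith), div_le_one_of_le₀ (by linarith)
          (by linarith)⟩
      rw [h3]
      rfl
  -- the second homotopy
  have hκ : ∀ u ∈ Icc (0 : ℝ) 1, δ ≤ δ + u * (lam * δ - δ) ∧
      δ + u * (lam * δ - δ) ≤ lam * δ := by
    intro u hu
    have h1 := hu.1
    have h2 := hu.2
    constructor
    · nlinarith
    · nlinarith
  have H2 : Htp (Y := ↥(OF (Fx σ) p a)) (W := ℝ → X) (OF (Fx σ) p (lam * a))
      {d | d.1 = fun _ => p}
      (fun d => rp (N * δ) (pol m (2 * N) δ (samp (2 * N) δ (ed σ a d.1))))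
      (fun d => rp (N * (lam * δ)) (pol m (2 * N) (lam * δ) (samp (2 * N) δ (ed σ a d.1)))) := by
    refine Htp.of_clamp (fun d u => rp (N * (δ + u * (lam * δ - δ)))
      (pol m (2 * N) (δ + u * (lam * δ - δ)) (samp (2 * N) δ (ed σ a d.1)))) ?_ ?_ ?_ ?_ ?_
    · rw [continuousOn_iff_continuous_domRestrict]
      have c1 := pol_cont hm hδ hδr
        (F := fun z : ↥{z : ↥(OF (Fx σ) p a) × ℝ | z.2 ∈ Icc (0 : ℝ) 1} =>
          samp (2 * N) δ (ed σ a z.1.1.1))
        (κ := fun z => δ + z.1.2 * (lam * δ - δ))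
        (samp_cont (hedc.comp (continuous_fst.comp continuous_subtype_val)))
        (fun z => (hsm z.1.1).1.1)
        (by fun_prop) (fun z => lt_of_lt_of_le hδ (hκ _ z.2).1)
      rw [continuous_pi_iff]
      intro t
      refine eval_cont c1 ?_ (τ := fun z : ↥{z : ↥(OF (Fx σ) p a) × ℝ | z.2 ∈ Icc (0 : ℝ) 1} =>
        max t 0 + N * (δ + z.1.2 * (lam * δ - δ))) (by fun_prop)
      intro z
      exact (pol_mem hm hδr ⟨(hsm z.1.1).1.1, (hsm z.1.1).2⟩ (hκ _ z.2).1
        (lt_of_lt_of_le hδ (hκ _ z.2).1) le_rfl).1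
    · intro d u hu
      exact hpm δ _ _ hδr (hsm d) (hκ u hu).1 (lt_of_lt_of_le hδ (hκ u hu).1) (hκ u hu).2
    · intro d
      simp
    · intro d
      simp
    · intro d hd u hu
      have hd' : d.1 = fun _ => p := hd
      change rp _ (pol m (2 * N) _ (samp (2 * N) δ (ed σ a d.1))) =
        rp _ (pol m (2 * N) _ (samp (2 * N) δ (ed σ a d.1)))
      rw [hd', ed_const hp, hsc, hpc, hpc]
      rfl
  -- the third homotopy
  have H3 : Htp (Y := ↥(OF (Fx σ) p a)) (W := ℝ → X) (OF (Fx σ) p (lam * a))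
      {d | d.1 = fun _ => p}
      (fun d => rp (N * (lam * δ)) (pol m (2 * N) (lam * δ) (samp (2 * N) δ (ed σ a d.1))))
      (fun _ _ => p) := by
    obtain ⟨H, h1, h2, h3, h4, h5⟩ := hH
    refine ⟨fun d s => rp (N * (lam * δ)) (pol m (2 * N) (lam * δ)
      (H ⟨samp (2 * N) δ (ed σ a d.1), hsm d⟩ s)), ?_, ?_, ?_, ?_, ?_⟩
    · refine rp_cont (F := fun z : ↥(OF (Fx σ) p a) × ℝ => pol m (2 * N) (lam * δ)
        (H ⟨samp (2 * N) δ (ed σ a z.1.1), hsm z.1⟩ z.2)) ?_ _
      refine pol_cont hm hδ' hr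
        (F := fun z : ↥(OF (Fx σ) p a) × ℝ => H ⟨samp (2 * N) δ (ed σ a z.1.1), hsm z.1⟩ z.2)
        (κ := fun _ => lam * δ) ?_ (fun z => (h2 _ _).1.1) continuous_const (fun _ => hδ')
      have c1 : Continuous fun z : ↥(OF (Fx σ) p a) × ℝ =>
          ((⟨samp (2 * N) δ (ed σ a z.1.1), hsm z.1⟩ : ↥(Symp X σ N δ p)), z.2) := by
        refine Continuous.prodMk ?_ continuous_snd
        exact Continuous.subtype_mk (samp_cont (hedc.comp continuous_fst)) _
      exact h1.comp c1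
    · intro d s
      exact hpm (lam * δ) (lam * δ) _ hr (h2 _ _) le_rfl hδ' le_rfl
    · intro d s hs
      change rp _ (pol m (2 * N) (lam * δ) (H ⟨samp (2 * N) δ (ed σ a d.1), hsm d⟩ s)) =
        rp _ (pol m (2 * N) (lam * δ) (samp (2 * N) δ (ed σ a d.1)))
      rw [h3 _ _ hs]
    · intro d s hs
      change rp _ (pol m (2 * N) (lam * δ) (H ⟨samp (2 * N) δ (ed σ a d.1), hsm d⟩ s)) =
        fun _ => p
      rw [h4 _ _ hs, hpc]
      rfl
    · intro d hd s
      have hd' : d.1 = fun _ => p := hd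
      have h6 : (⟨samp (2 * N) δ (ed σ a d.1), hsm d⟩ : ↥(Symp X σ N δ p)) ∈
          {x : ↥(Symp X σ N δ p) | ∀ i, x.1 i = p} := by
        intro i
        change samp (2 * N) δ (ed σ a d.1) i = p
        rw [hd', ed_const hp]
        rfl
      change rp _ (pol m (2 * N) (lam * δ) (H ⟨samp (2 * N) δ (ed σ a d.1), hsm d⟩ s)) =
        rp _ (pol m (2 * N) (lam * δ) (samp (2 * N) δ (ed σ a d.1)))
      rw [h5 _ h6 s]
  have H4 := (H1.trans H2).trans H3
  exact H4

end Pool.Agent.R441.IF
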